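import Mathlib

open Set Filter Topology Real

namespace Pool.Agent.Results.MP_ace4dd_an.NotMonotone

/-- `g` is a unimodal map of `[-1,1]` with turning point `c`. -/
def Unimodal (g : ℝ → ℝ) (c : ℝ) : Prop :=
  ContinuousOn g (Icc (-1) 1) ∧ MapsTo g (Icc (-1) 1) (Icc (-1) 1) ∧ g (-1) = -1 ∧ g 1 = -1 ∧
    c ∈ Ioo (-1 : ℝ) 1 ∧ StrictMonoOn g (Icc (-1) c) ∧ StrictAntiOn g (Icc c 1)

/-- `ν` is the kneading sequence of `g` with turning point `c`. -/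
def IsKneading (g : ℝ → ℝ) (c : ℝ) (ν : ℕ → SignType) : Prop :=
  ∀ i, ∀ᶠ y in 𝓝[<] (g c), SignType.sign (deriv (g^[i + 1]) y) = ν i

theorem sign_const {f : ℝ → ℝ} {a b : ℝ} (hf : ContinuousOn f (Ioo a b))
    (h0 : ∀ y ∈ Ioo a b, f y ≠ 0) : (∀ y ∈ Ioo a b, 0 < f y) ∨ ∀ y ∈ Ioo a b, f y < 0 := by
  by_contra h
  push Not at h
  obtain ⟨⟨x, hx, h1⟩, y, hy, h2⟩ := h
  obtain ⟨z, hz, e⟩ := isPreconnected_Ioo.intermediate_value hx hy hf ⟨h1, h2⟩
  exact h0 z hz e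

theorem exists_kneading {g : ℝ → ℝ} (hg : ContDiff ℝ 1 g) {c : ℝ}
    (h : ∀ x, x ≠ c → deriv g x ≠ 0) (v : ℝ) :
    ∃ ν : ℕ → SignType, ∀ i, ∀ᶠ y in 𝓝[<] v, SignType.sign (deriv (g^[i + 1]) y) = ν i := by
  have hit : ∀ n, ContDiff ℝ 1 g^[n] := fun n => by
    induction n with
    | zero => exact contDiff_id
    | succ n ih => rw [Function.iterate_succ']; exact hg.comp ih
  have hd : ∀ n, Differentiable ℝ g^[n] := fun n => (hit n).differentiable one_ne_zero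
  have key : ∀ n, ∃ a < v, ∀ y ∈ Ioo a v, deriv g^[n] y ≠ 0 := by
    intro n
    induction n with
    | zero => exact ⟨v - 1, by linarith, fun y _ => by simp⟩
    | succ n ih =>
      obtain ⟨a, ha, H⟩ := ih
      have hinj : InjOn g^[n] (Ioo a v) := by
        rcases sign_const ((hit n).continuous_deriv le_rfl).continuousOn H with h1 | h1
        · exact (strictMonoOn_of_deriv_pos (convex_Ioo a v) (hit n).continuous.continuousOn
            (by rwa [interior_Ioo])).injOn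
        · exact (strictAntiOn_of_deriv_neg (convex_Ioo a v) (hit n).continuous.continuousOn
            (by rwa [interior_Ioo])).injOn
      have : ∃ b < v, a ≤ b ∧ ∀ y ∈ Ioo b v, g^[n] y ≠ c := by
        by_cases h2 : ∃ z ∈ Ioo a v, g^[n] z = c
        · obtain ⟨z, hz, e⟩ := h2
          refine ⟨z, hz.2, hz.1.le, fun y hy e2 => ?_⟩
          exact hy.1.ne' (hinj ⟨hz.1.trans hy.1, hy.2⟩ hz (e2.trans e.symm))
        · push Not at h2
          exact ⟨a, ha, le_rfl, h2⟩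
      obtain ⟨b, hb, hab, H2⟩ := this
      refine ⟨b, hb, fun y hy => ?_⟩
      rw [Function.iterate_succ', deriv_comp _ (hg.differentiable one_ne_zero _) (hd n y)]
      exact mul_ne_zero (h _ (H2 y hy)) (H y ⟨hab.trans_lt hy.1, hy.2⟩)
  have : ∀ i, ∃ s, ∀ᶠ y in 𝓝[<] v, SignType.sign (deriv (g^[i + 1]) y) = s := by
    intro i
    obtain ⟨a, ha, H⟩ := key (i + 1)
    rcases sign_const ((hit (i + 1)).continuous_deriv le_rfl).continuousOn H with h1 | h1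
    · exact ⟨1, (Filter.eventually_of_mem (Ioo_mem_nhdsLT ha) fun y hy => sign_pos (h1 y hy))⟩
    · exact ⟨-1, (Filter.eventually_of_mem (Ioo_mem_nhdsLT ha) fun y hy => sign_neg (h1 y hy))⟩
  choose ν hν using this
  exact ⟨ν, hν⟩

noncomputable def s (δ μ : ℝ) : ℝ := (2 - μ) * (δ / 4) * sin ((μ - 1) * 8 / δ)
noncomputable def G (δ x μ : ℝ) : ℝ := μ - 1 - μ * x ^ 2 + 2 * μ * s δ μ * (δ * sin (x / δ))
noncomputable def h (δ μ x : ℝ) : ℝ := x - s δ μ * cos (x / δ)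

theorem s_abs {δ μ : ℝ} (hδ : 0 < δ) (hμ : μ ∈ Ioc (0 : ℝ) 2) : |s δ μ| ≤ (2 - μ) * (δ / 4) := by
  have : 0 ≤ (2 - μ) * (δ / 4) := mul_nonneg (by linarith [hμ.2]) (by positivity)
  unfold s
  rw [abs_mul, abs_of_nonneg this]
  exact mul_le_of_le_one_right this (abs_sin_le_one _)

theorem s_abs' {δ μ : ℝ} (hδ : 0 < δ) (hμ : μ ∈ Ioc (0 : ℝ) 2) : |s δ μ| ≤ δ / 2 :=
  (s_abs hδ hμ).trans (by nlinarith [hμ.1])

theorem Gx {δ : ℝ} (hδ : 0 < δ) (μ x : ℝ) :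
    HasDerivAt (fun x => G δ x μ) (-2 * μ * h δ μ x) x := by
  have h1 : HasDerivAt (fun x : ℝ => x / δ) (1 / δ) x := (hasDerivAt_id x).div_const δ
  have h2 := (((hasDerivAt_pow 2 x).const_mul μ).const_sub (μ - 1)).add
    ((h1.sin.const_mul δ).const_mul (2 * μ * s δ μ))
  refine h2.congr_deriv ?_
  unfold h; field_simp; ring

theorem h_mono {δ μ : ℝ} (hδ : 0 < δ) (hμ : μ ∈ Ioc (0 : ℝ) 2) : StrictMono (h δ μ) := by
  intro x y hxy
  have h1 := abs_cos_sub_cos_le (y / δ) (x / δ)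
  have h2 : |y / δ - x / δ| = (y - x) / δ := by
    rw [← sub_div, abs_of_pos (div_pos (by linarith) hδ)]
  rw [h2] at h1
  have h3 : |s δ μ * (cos (y / δ) - cos (x / δ))| ≤ δ / 2 * ((y - x) / δ) := by
    rw [abs_mul]; exact mul_le_mul (s_abs' hδ hμ) h1 (abs_nonneg _) (by positivity)
  have h4 : δ / 2 * ((y - x) / δ) = (y - x) / 2 := by field_simp
  have := (abs_le.1 h3).2
  unfold h
  linarith

theorem h_near {δ μ : ℝ} (hδ : 0 < δ) (hμ : μ ∈ Ioc (0 : ℝ) 2) (x : ℝ) :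
    x - δ / 2 ≤ h δ μ x ∧ h δ μ x ≤ x + δ / 2 := by
  have : |s δ μ * cos (x / δ)| ≤ δ / 2 := by
    rw [abs_mul]
    exact (mul_le_of_le_one_right (abs_nonneg _) (abs_cos_le_one _)).trans (s_abs' hδ hμ)
  have := abs_le.1 this
  unfold h
  constructor <;> linarith

theorem G_le {δ μ : ℝ} (hδ : 0 < δ) (hμ : 0 < μ) (x : ℝ) : G δ x μ ≤ μ - 1 + μ * s δ μ ^ 2 := by
  have h1 : |δ * sin (x / δ)| ≤ |x| := by
    rw [abs_mul, abs_of_pos hδ]
    have := abs_sin_le_abs (x := x / δ)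
    rw [abs_div, abs_of_pos hδ, le_div_iff₀ hδ] at this
    linarith
  have h2 : (δ * sin (x / δ)) ^ 2 ≤ x ^ 2 := sq_le_sq.2 h1
  have h3 : 2 * s δ μ * (δ * sin (x / δ)) - x ^ 2 ≤ s δ μ ^ 2 := by
    nlinarith [sq_nonneg (s δ μ - δ * sin (x / δ))]
  have := mul_le_mul_of_nonneg_left h3 hμ.le
  unfold G
  linarith

theorem G_smooth (δ : ℝ) : ContDiff ℝ 1 fun p : ℝ × ℝ => G δ p.1 p.2 := by
  unfold G s
  fun_prop

theorem uni {δ μ : ℝ} (hδ : 0 < δ) (hδ1 : δ ≤ 1 / 10) (h1 : sin (1 / δ) = 0)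
    (hμ : μ ∈ Ioc (0 : ℝ) 2) : ∃ c, h δ μ c = 0 ∧ Unimodal (fun x => G δ x μ) c := by
  have hc : Continuous (h δ μ) := by unfold h; fun_prop
  obtain ⟨c, hc1, hc2⟩ := intermediate_value_Ioo (show (-1 : ℝ) ≤ 1 by norm_num) hc.continuousOn
    (show (0 : ℝ) ∈ Ioo (h δ μ (-1)) (h δ μ 1) from
      ⟨by linarith [(h_near hδ hμ (-1)).2], by linarith [(h_near hδ hμ 1).1]⟩)
  have hG : Continuous fun x => G δ x μ := by unfold G; fun_prop
  have e1 : G δ (-1) μ = -1 := by unfold G; rw [neg_div, sin_neg, h1]; ring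
  have e2 : G δ 1 μ = -1 := by unfold G; rw [h1]; ring
  have m1 : StrictMonoOn (fun x => G δ x μ) (Icc (-1) c) := by
    refine strictMonoOn_of_deriv_pos (convex_Icc _ _) hG.continuousOn fun x hx => ?_
    rw [interior_Icc] at hx
    rw [(Gx hδ μ x).deriv]
    have := h_mono hδ hμ hx.2
    nlinarith [hμ.1]
  have m2 : StrictAntiOn (fun x => G δ x μ) (Icc c 1) := by
    refine strictAntiOn_of_deriv_neg (convex_Icc _ _) hG.continuousOn fun x hx => ?_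
    rw [interior_Icc] at hx
    rw [(Gx hδ μ x).deriv]
    have := h_mono hδ hμ hx.1
    nlinarith [hμ.1]
  refine ⟨c, hc2, hG.continuousOn, fun x hx => ⟨?_, ?_⟩, e1, e2, hc1, m1, m2⟩
  · rcases le_total x c with h2 | h2
    · exact e1.symm.le.trans (m1.monotoneOn ⟨le_rfl, hc1.1.le⟩ ⟨hx.1, h2⟩ hx.1)
    · exact e2.symm.le.trans (m2.antitoneOn ⟨h2, hx.2⟩ ⟨hc1.2.le, le_rfl⟩ hx.2)
  · refine (G_le hδ hμ.1 x).trans ?_
    have h3 := s_abs hδ hμ
    have h4 : s δ μ ^ 2 ≤ ((2 - μ) * (δ / 4)) ^ 2 := by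
      rw [← sq_abs]; exact pow_le_pow_left₀ (abs_nonneg _) h3 2
    have h5 : 0 ≤ 2 - μ := by linarith [hμ.2]
    have h6 : μ * (2 - μ) * (δ / 4) ^ 2 ≤ 1 := by
      have : μ * (2 - μ) ≤ 1 := by nlinarith [sq_nonneg (μ - 1)]
      have : (δ / 4) ^ 2 ≤ 1 := by nlinarith
      nlinarith [mul_nonneg hμ.1.le h5]
    nlinarith [hμ.1, mul_le_mul_of_nonneg_left h4 hμ.1.le]

theorem close {δ μ : ℝ} (hδ : 0 < δ) (hδ1 : δ ≤ 1 / 10) (hμ : μ ∈ Ioc (0 : ℝ) 2) (x : ℝ) :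
    |G δ x μ - (μ - 1 - μ * x ^ 2)| + |deriv (fun x => G δ x μ - (μ - 1 - μ * x ^ 2)) x|
      + |deriv (fun μ => G δ x μ - (μ - 1 - μ * x ^ 2)) μ| ≤ 30 * δ := by
  have e : ∀ x μ, G δ x μ - (μ - 1 - μ * x ^ 2) = 2 * μ * s δ μ * (δ * sin (x / δ)) := by
    intro x μ; unfold G; ring
  simp only [e]
  have h1 : HasDerivAt (fun x : ℝ => x / δ) (1 / δ) x := (hasDerivAt_id x).div_const δ
  have d1 : HasDerivAt (fun x => 2 * μ * s δ μ * (δ * sin (x / δ)))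
      (2 * μ * (s δ μ * cos (x / δ))) x :=
    ((h1.sin.const_mul δ).const_mul (2 * μ * s δ μ)).congr_deriv (by field_simp)
  have h2 : HasDerivAt (fun μ : ℝ => (μ - 1) * 8 / δ) (8 / δ) μ := by
    simpa using (((hasDerivAt_id μ).sub_const 1).mul_const 8).div_const δ
  have h3 : HasDerivAt (s δ) (-(δ / 4) * sin ((μ - 1) * 8 / δ)
      + (2 - μ) * 2 * cos ((μ - 1) * 8 / δ)) μ := by
    refine ((((hasDerivAt_id μ).const_sub 2).mul_const (δ / 4)).mul h2.sin).congr_deriv ?_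
    simp only [id]; field_simp; ring
  set s' := -(δ / 4) * sin ((μ - 1) * 8 / δ) + (2 - μ) * 2 * cos ((μ - 1) * 8 / δ)
  have d2 : HasDerivAt (fun μ => 2 * μ * s δ μ * (δ * sin (x / δ)))
      ((2 * s δ μ + 2 * μ * s') * (δ * sin (x / δ))) μ := by
    refine ((((hasDerivAt_id μ).const_mul 2).mul h3).mul_const _).congr_deriv ?_
    simp only [id]; ring
  rw [d1.deriv, d2.deriv]
  have b0 := s_abs' hδ hμ
  have b1 : |δ * sin (x / δ)| ≤ δ := by
    rw [abs_mul, abs_of_pos hδ]; exact mul_le_of_le_one_right hδ.le (abs_sin_le_one _)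
  have b2 : |2 * μ| ≤ 4 := by rw [abs_le]; constructor <;> linarith [hμ.1, hμ.2]
  have b3 : |s'| ≤ 5 := by
    have := abs_le.1 (abs_sin_le_one ((μ - 1) * 8 / δ))
    have := abs_le.1 (abs_cos_le_one ((μ - 1) * 8 / δ))
    have := hμ.1
    have := hμ.2
    rw [abs_le]; constructor <;> simp only [s'] <;> nlinarith
  have b4 : |2 * μ * s δ μ| ≤ 4 * (δ / 2) := by
    rw [abs_mul]; exact mul_le_mul b2 b0 (abs_nonneg _) (by norm_num)
  have c1 : |2 * μ * s δ μ * (δ * sin (x / δ))| ≤ 4 * (δ / 2) * δ := by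
    rw [abs_mul]; exact mul_le_mul b4 b1 (abs_nonneg _) (by positivity)
  have c2 : |2 * μ * (s δ μ * cos (x / δ))| ≤ 4 * (δ / 2) := by
    rw [← mul_assoc, abs_mul]
    exact (mul_le_of_le_one_right (abs_nonneg _) (abs_cos_le_one _)).trans b4
  have b5 : |2 * μ * s'| ≤ 4 * 5 := by
    rw [abs_mul]; exact mul_le_mul b2 b3 (abs_nonneg _) (by norm_num)
  have b6 : |2 * s δ μ + 2 * μ * s'| ≤ 21 := by
    have := abs_le.1 b0
    have := abs_le.1 b5
    rw [abs_le]; constructor <;> linarith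
  have c3 : |(2 * s δ μ + 2 * μ * s') * (δ * sin (x / δ))| ≤ 21 * δ := by
    rw [abs_mul]; exact mul_le_mul b6 b1 (abs_nonneg _) (by positivity)
  nlinarith

theorem first {δ μ v : ℝ} (hδ : 0 < δ) (hμ : 0 < μ) {t : SignType}
    (H : ∀ᶠ y in 𝓝[<] v, SignType.sign (deriv ((fun x => G δ x μ)^[0 + 1]) y) = t) :
    (h δ μ v < 0 → t = 1) ∧ (0 < h δ μ v → t = -1) := by
  have hc : Continuous (h δ μ) := by unfold h; fun_prop
  simp only [zero_add, Function.iterate_one, (Gx hδ μ _).deriv] at H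
  constructor
  · intro h1
    obtain ⟨y, e, hy⟩ := (H.and (((hc.tendsto v).eventually (gt_mem_nhds h1)).filter_mono
      nhdsWithin_le_nhds)).exists
    rw [← e, sign_pos (by nlinarith)]
  · intro h1
    obtain ⟨y, e, hy⟩ := (H.and (((hc.tendsto v).eventually (lt_mem_nhds h1)).filter_mono
      nhdsWithin_le_nhds)).exists
    rw [← e, sign_neg (by nlinarith)]

theorem result (ε : ℝ) (hε : 0 < ε) :
    ∃ (G : ℝ → ℝ → ℝ) (c : ℝ → ℝ) (ν : ℝ → ℕ → SignType),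
      ContDiff ℝ 1 (fun p : ℝ × ℝ => G p.1 p.2) ∧
      (∀ μ ∈ Ioc (0 : ℝ) 2, Unimodal (fun x => G x μ) (c μ) ∧
        IsKneading (fun x => G x μ) (c μ) (ν μ)) ∧
      (∀ x ∈ Icc (-1 : ℝ) 1, ∀ μ ∈ Ioc (0 : ℝ) 2,
        |G x μ - (μ - 1 - μ * x ^ 2)| + |deriv (fun x => G x μ - (μ - 1 - μ * x ^ 2)) x|
          + |deriv (fun μ => G x μ - (μ - 1 - μ * x ^ 2)) μ| ≤ ε / 2) ∧
      ¬ MonotoneOn (fun μ => toLex (ν μ)) (Ioc 0 2) ∧
      ¬ AntitoneOn (fun μ => toLex (ν μ)) (Ioc 0 2) := by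
  obtain ⟨N, hN⟩ := exists_nat_gt (max 10 (60 / ε))
  have hpi := pi_gt_three
  have hpi' := pi_lt_d2
  have hN1 : (10 : ℝ) < N := (le_max_left _ _).trans_lt hN
  have hN2 : 60 / ε < N := (le_max_right _ _).trans_lt hN
  rw [div_lt_iff₀ hε] at hN2
  set δ : ℝ := 1 / (N * π) with hδdef
  have hδ : 0 < δ := by positivity
  have hδN : δ * (N * π) = 1 := by rw [hδdef]; field_simp
  have hNπ : 30 ≤ N * π := by nlinarith
  have hδ1 : δ ≤ 1 / 30 := by nlinarith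
  have hδ2 : 30 * δ ≤ ε / 2 := by
    rw [hδdef, mul_one_div, div_le_iff₀ (by positivity)]; nlinarith
  have hs : sin (1 / δ) = 0 := by rw [hδdef, one_div_one_div, sin_nat_mul_pi]
  have H : ∀ μ, ∃ c ν, μ ∈ Ioc (0 : ℝ) 2 → h δ μ c = 0 ∧ Unimodal (fun x => G δ x μ) c ∧
      IsKneading (fun x => G δ x μ) c ν := by
    intro μ
    by_cases hμ : μ ∈ Ioc (0 : ℝ) 2
    · obtain ⟨c, h1, h2⟩ := uni hδ (by linarith) hs hμ
      obtain ⟨ν, hν⟩ := exists_kneading (g := fun x => G δ x μ) (c := c)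
        (by unfold G; fun_prop) (fun x hx => by
          rw [(Gx hδ μ x).deriv]
          refine mul_ne_zero (by linarith [hμ.1]) fun h3 => hx ?_
          exact (h_mono hδ hμ).injective (h3.trans h1.symm)) (G δ c μ)
      exact ⟨c, ν, fun _ => ⟨h1, h2, hν⟩⟩
    · exact ⟨0, fun _ => 0, fun h => absurd h hμ⟩
  choose c ν hc using H
  have lower : ∀ μ ∈ Ioc (0 : ℝ) 2, μ - 1 ≤ G δ (c μ) μ := by
    intro μ hμ
    obtain ⟨-, ⟨-, -, -, -, h1, h2, h3⟩, -⟩ := hc μ hμ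
    have e : G δ 0 μ = μ - 1 := by simp [G]
    rw [← e]
    rcases le_total 0 (c μ) with h4 | h4
    · exact h2.monotoneOn ⟨by norm_num, h4⟩ ⟨h1.1.le, le_rfl⟩ h4
    · exact h3.antitoneOn ⟨le_rfl, h1.2.le⟩ ⟨h4, by norm_num⟩ h4
  have hm : 0 < π * δ / 16 := by positivity
  have hm' : π * δ / 16 ≤ δ / 5 := by nlinarith
  have m1 : (1 - π * δ / 16) ∈ Ioc (0 : ℝ) 2 := ⟨by linarith, by linarith⟩
  have m2 : (1 + π * δ / 16) ∈ Ioc (0 : ℝ) 2 := ⟨by linarith, by linarith⟩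
  have m3 : (3 / 2 : ℝ) ∈ Ioc (0 : ℝ) 2 := ⟨by norm_num, by norm_num⟩
  have cosb : ∀ y : ℝ, |y| ≤ δ / 4 → 0.96 ≤ cos (y / δ) := by
    intro y hy
    have h1 : |y / δ| ≤ 1 / 4 := by
      rw [abs_div, abs_of_pos hδ, div_le_iff₀ hδ]; linarith
    have := one_sub_sq_div_two_le_cos (x := y / δ)
    have h2 := abs_le.1 h1
    nlinarith
  have v1 : ν (1 - π * δ / 16) 0 = -1 := by
    refine (first hδ m1.1 ((hc _ m1).2.2 0)).2
      (lt_of_lt_of_le ?_ ((h_mono hδ m1).monotone (lower _ m1)))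
    have e : (1 - π * δ / 16 - 1) * 8 / δ = -(π / 2) := by field_simp; ring
    have := cosb (1 - π * δ / 16 - 1) (by rw [abs_le]; constructor <;> linarith)
    unfold h s
    rw [e, sin_neg, sin_pi_div_two]
    nlinarith [mul_pos hm hδ]
  have v2 : ν (1 + π * δ / 16) 0 = 1 := by
    have u1 := G_le hδ m2.1 (c (1 + π * δ / 16))
    have e : (1 + π * δ / 16 - 1) * 8 / δ = π / 2 := by field_simp; ring
    have es : s δ (1 + π * δ / 16) = (1 - π * δ / 16) * (δ / 4) := by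
      unfold s; rw [e, sin_pi_div_two]; ring
    have u2 : G δ (c (1 + π * δ / 16)) (1 + π * δ / 16) ≤ δ * 0.21 := by
      refine u1.trans ?_
      have k1 : s δ (1 + π * δ / 16) ^ 2 ≤ (δ / 4) ^ 2 := by
        rw [es]
        refine pow_le_pow_left₀ (mul_nonneg m1.1.le (by positivity)) (by nlinarith) 2
      have k2 := mul_le_mul m2.2 k1 (sq_nonneg _) (by norm_num)
      nlinarith
    refine (first hδ m2.1 ((hc _ m2).2.2 0)).1
      (lt_of_le_of_lt ((h_mono hδ m2).monotone u2) ?_)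
    have := cosb (δ * 0.21) (by rw [abs_le]; constructor <;> linarith)
    unfold h
    rw [es]
    have k3 : 0.99 ≤ 1 - π * δ / 16 := by linarith
    have k4 : 0.99 * 0.96 ≤ (1 - π * δ / 16) * cos (δ * 0.21 / δ) :=
      mul_le_mul k3 this (by norm_num) (by linarith)
    nlinarith
  have v3 : ν (3 / 2) 0 = -1 := by
    refine (first hδ m3.1 ((hc _ m3).2.2 0)).2
      (lt_of_lt_of_le ?_ ((h_mono hδ m3).monotone (lower _ m3)))
    linarith [(h_near hδ m3 (3 / 2 - 1)).1]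
  refine ⟨G δ, c, ν, G_smooth δ, fun μ hμ => (hc μ hμ).2,
    fun x _ μ hμ => (close hδ (by linarith) hμ x).trans hδ2, fun H => ?_, fun H => ?_⟩
  · refine absurd (H m2 m3 (by linarith)) (not_le.2 ⟨0, fun j hj => absurd hj (by simp), ?_⟩)
    change ν (3 / 2) 0 < ν (1 + π * δ / 16) 0
    rw [v2, v3]; decide
  · refine absurd (H m1 m2 (by linarith)) (not_le.2 ⟨0, fun j hj => absurd hj (by simp), ?_⟩)
    change ν (1 - π * δ / 16) 0 < ν (1 + π * δ / 16) 0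
    rw [v1, v2]; decide

end Pool.Agent.Results.MP_ace4dd_an.NotMonotone
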